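import Pool.Agent.Helper89.Vol4.Goals

/-! # MP_cd13d2_co : the exact value of `V(4,7)`, packet V47-LD (the distances) -/

set_option autoImplicit false

namespace Pool.Agent.Helper24.Vol4.PkLD

open Set Pool.Agent.Helper86.Poly Pool.Agent.Helper89.Vol4

theorem dist_le {p q : E 4}
    (h : (p 0 - q 0) ^ 2 + (p 1 - q 1) ^ 2 + (p 2 - q 2) ^ 2 + (p 3 - q 3) ^ 2 ≤ 1) :
    dist p q ≤ 1 := by
  rw [EuclideanSpace.dist_eq, Fin.sum_univ_four, Real.sqrt_le_one]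
  simp only [Real.dist_eq, sq_abs]
  exact h

theorem thm : Pool.Agent.Helper89.Vol4.G_LD := by
  intro N hN i j
  obtain ⟨h0, h1⟩ := hN
  have hM2 : √(3 / 4 - N ^ 2) ^ 2 = 3 / 4 - N ^ 2 := Real.sq_sqrt (by nlinarith)
  have hr2 : vv N ^ 2 = 3 / 4 - (1 / 2 + N) ^ 2 := Real.sq_sqrt (by nlinarith)
  have hM0 : 0 ≤ √(3 / 4 - N ^ 2) := Real.sqrt_nonneg _
  have hr0 : 0 ≤ vv N := Real.sqrt_nonneg _
  obtain ⟨M, hM⟩ : ∃ M, M = √(3 / 4 - N ^ 2) := ⟨_, rfl⟩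
  obtain ⟨r, hr⟩ : ∃ r, r = vv N := ⟨_, rfl⟩
  have hQ : Q4 N = ![!₂[-N, 0, -(1 / 2), 0], !₂[-N, 0, 1 / 2, 0], !₂[N, 0, 0, -(1 / 2)],
      !₂[N, 0, 0, 1 / 2], !₂[1 / 2, r, 0, 0], !₂[0, M, 0, 0], !₂[-(1 / 2), r, 0, 0]] := by
    rw [hM, hr]
    rfl
  rw [← hM] at hM2 hM0
  rw [← hr] at hr2 hr0
  rw [hQ]
  clear hQ hM hr
  have hrM : r ≤ M := by
    by_contra hc
    push Not at hc
    nlinarith
  have hN2 : N ^ 2 ≤ 9 / 100 := by nlinarith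
  have hh0 : 0 ≤ M - r := sub_nonneg.2 hrM
  have hh2 : (M - r) ^ 2 ≤ 3 / 4 := by nlinarith [mul_nonneg hr0 hh0, mul_nonneg hr0 hM0]
  fin_cases i <;> fin_cases j <;> refine dist_le ?_ <;> simp <;>
    first
    | (rw [abs_le]; constructor <;> linarith)
    | nlinarith

end Pool.Agent.Helper24.Vol4.PkLD
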